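import Mathlib
import Pool.Agent.Y734.R.Stms5

/-!
# The inequality for a cluster
-/

set_option autoImplicit false

namespace Pool.Agent.Y734.R.P2

open Pool.Agent.Y734.R

/-- the similarity with the value `t` on the cluster -/
noncomputable def BB {G : Type} {m : ℕ} (A : Fin m → Fin m → G) (C : Finset (Fin m)) (t : G)
    (i j : Fin m) : G :=
  open Classical in if i ∈ C ∧ j ∈ C then t else A i j

theorem BB_in {G : Type} {m : ℕ} {A : Fin m → Fin m → G} {C : Finset (Fin m)} {t : G}
    {i j : Fin m} (hi : i ∈ C) (hj : j ∈ C) : BB A C t i j = t := by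
  unfold BB
  rw [if_pos ⟨hi, hj⟩]

theorem BB_l {G : Type} {m : ℕ} {A : Fin m → Fin m → G} {C : Finset (Fin m)} {t : G}
    {i j : Fin m} (hi : i ∉ C) : BB A C t i j = A i j := by
  unfold BB
  rw [if_neg (fun h => hi h.1)]

theorem BB_r {G : Type} {m : ℕ} {A : Fin m → Fin m → G} {C : Finset (Fin m)} {t : G}
    {i j : Fin m} (hj : j ∉ C) : BB A C t i j = A i j := by
  unfold BB
  rw [if_neg (fun h => hj h.2)]

theorem BB_sim {G : Type} [AddCommGroup G] [LinearOrder G] {m : ℕ} {A : Fin m → Fin m → G}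
    (hA : Sim A) {C : Finset (Fin m)} {t : G} (ht : 0 ≤ t) (h1 : ∀ i ∈ C, ∀ j ∈ C, t ≤ A i j)
    (h2 : ∀ i ∈ C, ∀ j ∉ C, A i j ≤ t) : Sim (BB A C t) := by
  obtain ⟨a1, a2, a3, a4⟩ := hA
  refine ⟨fun i j => ?_, fun i j => ?_, fun i j l => ?_, fun i j => ?_⟩
  · unfold BB
    split_ifs
    · exact ht
    · exact a1 i j
  · by_cases hi : i ∈ C
    · by_cases hj : j ∈ C
      · rw [BB_in hi hj, BB_in hj hi]
      · rw [BB_r hj, BB_l hj, a2]
    · rw [BB_l hi, BB_r hi, a2]
  · by_cases hi : i ∈ C
    · by_cases hl : l ∈ C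
      · rw [BB_in hi hl]
        refine (min_le_left _ _).trans ?_
        by_cases hj : j ∈ C
        · rw [BB_in hi hj]
        · rw [BB_r hj]
          exact h2 i hi j hj
      · rw [BB_r (i := i) hl, BB_r (i := j) hl]
        by_cases hj : j ∈ C
        · refine (min_le_right _ _).trans ?_
          have h3 : A j l ≤ A i j := (h2 j hj l hl).trans (h1 i hi j hj)
          have h4 := a3 i j l
          rwa [min_eq_right h3] at h4
        · rw [BB_r hj]
          exact a3 i j l
    · rw [BB_l (j := l) hi, BB_l (j := j) hi]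
      by_cases hl : l ∈ C
      · by_cases hj : j ∈ C
        · refine (min_le_left _ _).trans ?_
          have h3 : A i j ≤ A j l := by
            rw [a2 i j]
            exact (h2 j hj i hi).trans (h1 j hj l hl)
          have h4 := a3 i j l
          rwa [min_eq_left h3] at h4
        · rw [BB_l hj]
          exact a3 i j l
      · rw [BB_r hl]
        exact a3 i j l
  · by_cases hi : i ∈ C
    · rw [BB_in hi hi]
      by_cases hj : j ∈ C
      · rw [BB_in hi hj]
      · rw [BB_r hj]
        exact h2 i hi j hj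
    · rw [BB_l hi, BB_l hi]
      exact a4 i j

/-- the test vector -/
noncomputable def zz {m : ℕ} (C : Finset (Fin m)) (i : Fin m) : ℤ :=
  open Classical in (if i ∈ C then (m : ℤ) else 0) - C.card

theorem zz_in {m : ℕ} {C : Finset (Fin m)} {i : Fin m} (hi : i ∈ C) :
    zz C i = (m : ℤ) - C.card := by
  unfold zz
  rw [if_pos hi]

theorem sum_zz {m : ℕ} (C : Finset (Fin m)) : ∑ i, zz C i = 0 := by
  classical
  have h1 : ∀ i : Fin m, zz C i = (if i ∈ C then (m : ℤ) else 0) + -(C.card : ℤ) := by
    intro i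
    by_cases hi : i ∈ C
    · rw [zz_in hi, if_pos hi]
      ring
    · unfold zz
      simp only [if_neg hi]
      ring
  rw [Finset.sum_congr rfl fun i _ => h1 i, Finset.sum_add_distrib, Finset.sum_ite_mem,
    Finset.univ_inter, Finset.sum_const, Finset.sum_const, Finset.card_univ, Fintype.card_fin,
    nsmul_eq_mul, nsmul_eq_mul]
  ring

theorem sum_zz2 {m : ℕ} (C : Finset (Fin m)) :
    ∑ i, zz C i * zz C i = (C.card : ℤ) * m * (m - C.card) := by
  classical
  have h1 : ∀ i : Fin m, zz C i * zz C i =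
      (if i ∈ C then (m : ℤ) * (m - 2 * C.card) else 0) + (C.card : ℤ) * C.card := by
    intro i
    by_cases hi : i ∈ C
    · rw [zz_in hi, if_pos hi]
      ring
    · unfold zz
      rw [if_neg hi, if_neg hi]
      ring
  rw [Finset.sum_congr rfl fun i _ => h1 i, Finset.sum_add_distrib, Finset.sum_ite_mem,
    Finset.univ_inter, Finset.sum_const, Finset.sum_const, Finset.card_univ, Fintype.card_fin,
    nsmul_eq_mul, nsmul_eq_mul]
  ring

theorem clu (h : PsdStmt) : CluStmt := by
  classical
  intro G _ _ _ q m e A hS hd hE s C t ht hC h1 h2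
  have hq : 1 ≤ q := by
    have := s.2
    omega
  obtain ⟨k, hk⟩ : ∃ k : ℕ, k = m - C.card := ⟨_, rfl⟩
  have hk0 : k ≠ 0 := by omega
  have hkz : ((k : ℕ) : ℤ) = (m : ℤ) - C.card := by omega
  obtain ⟨z, hz⟩ : ∃ z : Fin m → ℤ, z = zz C := ⟨_, rfl⟩
  have z1 : ∑ i, z i = 0 := by rw [hz]; exact sum_zz C
  have z2 : ∑ i, z i * z i = (C.card : ℤ) * m * k := by rw [hz, sum_zz2, hkz]
  have zin : ∀ i ∈ C, z i = k := fun i hi => by rw [hz, zz_in hi, hkz]
  -- the sum over all places
  have hsum : ∀ i j, ∑ u, A u i j = e + if i = j then ((q : ℤ) - 1) • e else 0 := by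
    intro i j
    by_cases hij : i = j
    · subst hij
      rw [if_pos rfl, Finset.sum_congr rfl fun u _ => hd u i, Finset.sum_const, Finset.card_univ,
        Fintype.card_fin, sub_smul, one_smul, natCast_zsmul]
      abel
    · rw [if_neg hij, hE i j hij, add_zero]
  have htot : ∑ u, ∑ i, ∑ j, (z i * z j) • A u i j =
      ((C.card : ℤ) * m * k * ((q : ℤ) - 1)) • e := by
    have e1 : ∑ u, ∑ i, ∑ j, (z i * z j) • A u i j = ∑ i, ∑ j, (z i * z j) • ∑ u, A u i j := by
      rw [Finset.sum_comm]
      refine Finset.sum_congr rfl fun i _ => ?_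
      rw [Finset.sum_comm]
      refine Finset.sum_congr rfl fun j _ => ?_
      rw [Finset.smul_sum]
    have e2 : ∀ i, ∑ j, (z i * z j) • ∑ u, A u i j =
        (∑ j, z i * z j) • e + (z i * z i) • (((q : ℤ) - 1) • e) := by
      intro i
      have e3 : ∀ j, (z i * z j) • ∑ u, A u i j =
          (z i * z j) • e + if i = j then (z i * z i) • (((q : ℤ) - 1) • e) else 0 := by
        intro j
        rw [hsum, smul_add]
        congr 1
        by_cases hij : i = j
        · subst hij
          rw [if_pos rfl, if_pos rfl]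
        · rw [if_neg hij, if_neg hij, smul_zero]
      rw [Finset.sum_congr rfl fun j _ => e3 j, Finset.sum_add_distrib, Finset.sum_ite_eq,
        if_pos (Finset.mem_univ i), Finset.sum_smul]
    rw [e1, Finset.sum_congr rfl fun i _ => e2 i, Finset.sum_add_distrib, ← Finset.sum_smul,
      ← Finset.sum_smul, z2]
    have e4 : ∑ i, ∑ j, z i * z j = 0 := by
      rw [← Finset.sum_mul_sum, z1, zero_mul]
    rw [e4, zero_smul, zero_add, smul_smul]
  have hnn : ∀ u, 0 ≤ ∑ i, ∑ j, (z i * z j) • A u i j := fun u => h G m (A u) (hS u) z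
  have hle : ∑ i, ∑ j, (z i * z j) • A s i j ≤ ((C.card : ℤ) * m * k * ((q : ℤ) - 1)) • e := by
    rw [← htot]
    exact Finset.single_le_sum (f := fun u => ∑ i, ∑ j, (z i * z j) • A u i j)
      (fun u _ => hnn u) (Finset.mem_univ s)
  -- the cluster
  have hB := h G m (BB (A s) C t) (BB_sim (hS s) ht h1 h2) z
  have hdec : ∑ i, ∑ j, (z i * z j) • A s i j = ∑ i, ∑ j, (z i * z j) • BB (A s) C t i j +
      k • (k • ∑ i ∈ C, ∑ j ∈ C, (A s i j - t)) := by
    have e5 : ∀ i j, (z i * z j) • A s i j = (z i * z j) • BB (A s) C t i j +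
        if i ∈ C then (if j ∈ C then k • (k • (A s i j - t)) else 0) else 0 := by
      intro i j
      by_cases hi : i ∈ C
      · by_cases hj : j ∈ C
        · rw [BB_in hi hj, if_pos hi, if_pos hj, zin i hi, zin j hj, mul_smul, mul_smul,
            natCast_zsmul, natCast_zsmul, natCast_zsmul, natCast_zsmul, ← smul_add, ← smul_add,
            add_sub_cancel]
        · rw [BB_r hj, if_pos hi, if_neg hj, add_zero]
      · rw [BB_l hi, if_neg hi, add_zero]
    have e6 : ∀ i, ∑ j, (z i * z j) • A s i j = ∑ j, (z i * z j) • BB (A s) C t i j +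
        if i ∈ C then ∑ j ∈ C, k • (k • (A s i j - t)) else 0 := by
      intro i
      rw [Finset.sum_congr rfl fun j _ => e5 i j, Finset.sum_add_distrib]
      congr 1
      by_cases hi : i ∈ C
      · simp only [if_pos hi]
        rw [Finset.sum_ite_mem, Finset.univ_inter]
      · simp only [if_neg hi, Finset.sum_const_zero]
    rw [Finset.sum_congr rfl fun i _ => e6 i, Finset.sum_add_distrib, Finset.sum_ite_mem,
      Finset.univ_inter]
    congr 1
    rw [Finset.smul_sum, Finset.smul_sum]
    refine Finset.sum_congr rfl fun i _ => ?_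
    rw [Finset.smul_sum, Finset.smul_sum]
  rw [hdec] at hle
  have hfin : k • (k • ∑ i ∈ C, ∑ j ∈ C, (A s i j - t)) ≤ k • (((q - 1) * C.card * m) • e) := by
    have e7 : ((C.card : ℤ) * m * k * ((q : ℤ) - 1)) • e =
        k • (((q - 1) * C.card * m) • e) := by
      rw [← natCast_zsmul, ← natCast_zsmul, smul_smul]
      congr 1
      push_cast [Nat.cast_sub hq]
      ring
    rw [← e7]
    exact (le_add_of_nonneg_left hB).trans hle
  rw [← hk]
  by_contra hcon
  rw [not_le] at hcon
  exact absurd (nsmul_lt_nsmul_right hk0 hcon) (not_lt.2 hfin)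

end Pool.Agent.Y734.R.P2
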